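import Pool.Agent.Helper85_Leo.FamLeo

/-!
# Base fields: number fields of every signature with Leopoldt's conjecture at `p`
-/

set_option autoImplicit false

open Polynomial NumberField Module
open Pool.Agent.Helper85_Leo

namespace Pool.Agent.LeoG.H59

/-- For every prime `p` and every signature there is a number field for which Leopoldt's
conjecture at `p` holds. -/
theorem exists_sig (p : ℕ) [hp : Fact p.Prime] (r₁ r₂ : ℕ) (hn : 0 < r₁ + 2 * r₂) :
    ∃ (k : Type) (_ : Field k) (_ : NumberField k), finrank ℚ k = r₁ + 2 * r₂ ∧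
      InfinitePlace.nrRealPlaces k = r₁ ∧ InfinitePlace.nrComplexPlaces k = r₂ ∧
      LeopoldtAt k p := by
  set m := r₁ + 2 * r₂ + 1 with hm
  have h2 : 2 ≤ p := hp.out.two_le
  have hpm : m < p ^ (2 * m) := by
    calc m < 2 ^ m := Nat.lt_two_pow_self
      _ ≤ p ^ m := Nat.pow_le_pow_left h2 m
      _ ≤ p ^ (2 * m) := Nat.pow_le_pow_right (by omega) (by omega)
  have hM : (3 : ℤ) ≤ (p : ℤ) ^ m * 3 := by
    have : (1 : ℤ) ≤ (p : ℤ) ^ m := one_le_pow₀ (by exact_mod_cast hp.out.one_lt.le)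
    linarith
  obtain ⟨K, _, _, θ, h⟩ := exists_isFam r₁ r₂ ((p : ℤ) ^ m * 3) (by linarith) hn
  exact ⟨K, inferInstance, inferInstance, h.deg, h.nrRealPlaces hM, h.nrComplexPlaces hM,
    h.leopoldtAt hM p m (Dvd.intro _ rfl) hpm⟩

/-- For every prime `p` and every `d ≥ 1` there is a totally real field of degree `d` for which
Leopoldt's conjecture at `p` holds. -/
theorem exists_base (p : ℕ) [Fact p.Prime] (d : ℕ) (hd : 1 ≤ d) :
    ∃ (k : Type) (_ : Field k) (_ : NumberField k), finrank ℚ k = d ∧ IsTotallyReal k ∧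
      LeopoldtAt k p := by
  obtain ⟨k, _, _, h1, -, h2, h3⟩ := exists_sig p d 0 (by omega)
  exact ⟨k, inferInstance, inferInstance, h1, nrComplexPlaces_eq_zero_iff.1 h2, h3⟩

end Pool.Agent.LeoG.H59

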